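import Pool.Agent.H18.N6F.Targets

/-!
# Row FQLC: the leading coefficient of the quartic
-/

set_option autoImplicit false

open Polynomial NumberField IsDedekindDomain Matrix Pool.Agent.H32.QC Pool.Agent.H34.N6
  Pool.Agent.H18.N6F

namespace Pool.Agent.H1.N6F

section

variable {F : Type} [Field F]

/-- the entry of the Gram matrix of `q` for the vectors `e₀`, `e₁`, `u(z)` -/
noncomputable def qe (q : Matrix (Fin 7) (Fin 7) F) (d : F) (i j : Fin 3) : F[X] :=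
  uu d i ⬝ᵥ (q.map C *ᵥ uu d j)

theorem qe_00 (q : Matrix (Fin 7) (Fin 7) F) (d : F) : qe q d 0 0 = C (q 0 0) := by
  simp [qe, uu, Matrix.mulVec, dotProduct, Fin.sum_univ_succ]

theorem qe_01 (q : Matrix (Fin 7) (Fin 7) F) (d : F) : qe q d 0 1 = C (q 0 1) := by
  simp [qe, uu, Matrix.mulVec, dotProduct, Fin.sum_univ_succ]

theorem qe_10 (q : Matrix (Fin 7) (Fin 7) F) (d : F) : qe q d 1 0 = C (q 1 0) := by
  simp [qe, uu, Matrix.mulVec, dotProduct, Fin.sum_univ_succ]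

theorem qe_11 (q : Matrix (Fin 7) (Fin 7) F) (d : F) : qe q d 1 1 = C (q 1 1) := by
  simp [qe, uu, Matrix.mulVec, dotProduct, Fin.sum_univ_succ]

theorem mulVec_uu2 (q : Matrix (Fin 7) (Fin 7) F) (d : F) (i : Fin 7) :
    (q.map C *ᵥ uu d 2) i = C (q i 2) * (-C (d / 2) * X ^ 2) + C (q i 3) * X + C (q i 6) := by
  simp [uu, Matrix.mulVec, dotProduct, Fin.sum_univ_succ]
  ring_nf

theorem qe_02 (q : Matrix (Fin 7) (Fin 7) F) (d : F) :
    qe q d 0 2 = C (q 0 2) * (-C (d / 2) * X ^ 2) + C (q 0 3) * X + C (q 0 6) := by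
  unfold qe
  simp only [dotProduct, Fin.sum_univ_succ, mulVec_uu2]
  simp [uu]

theorem qe_12 (q : Matrix (Fin 7) (Fin 7) F) (d : F) :
    qe q d 1 2 = C (q 1 2) * (-C (d / 2) * X ^ 2) + C (q 1 3) * X + C (q 1 6) := by
  unfold qe
  simp only [dotProduct, Fin.sum_univ_succ, mulVec_uu2]
  simp [uu]

theorem uu2_dot (d : F) (w : Fin 7 → F[X]) :
    uu d 2 ⬝ᵥ w = -C (d / 2) * X ^ 2 * w 2 + X * w 3 + w 6 := by
  simp [uu, dotProduct, Fin.sum_univ_succ]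
  ring

theorem mulVec_uu0 (q : Matrix (Fin 7) (Fin 7) F) (d : F) (i : Fin 7) :
    (q.map C *ᵥ uu d 0) i = C (q i 0) := by
  simp [uu, Matrix.mulVec, dotProduct, Fin.sum_univ_succ]

theorem mulVec_uu1 (q : Matrix (Fin 7) (Fin 7) F) (d : F) (i : Fin 7) :
    (q.map C *ᵥ uu d 1) i = C (q i 1) := by
  simp [uu, Matrix.mulVec, dotProduct, Fin.sum_univ_succ]

theorem qe_20 (q : Matrix (Fin 7) (Fin 7) F) (d : F) :
    qe q d 2 0 = C (q 2 0) * (-C (d / 2) * X ^ 2) + C (q 3 0) * X + C (q 6 0) := by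
  unfold qe
  rw [uu2_dot, mulVec_uu0, mulVec_uu0, mulVec_uu0]
  ring

theorem qe_21 (q : Matrix (Fin 7) (Fin 7) F) (d : F) :
    qe q d 2 1 = C (q 2 1) * (-C (d / 2) * X ^ 2) + C (q 3 1) * X + C (q 6 1) := by
  unfold qe
  rw [uu2_dot, mulVec_uu1, mulVec_uu1, mulVec_uu1]
  ring

theorem qe_22 (q : Matrix (Fin 7) (Fin 7) F) (d : F) :
    qe q d 2 2 = C ((d / 2) ^ 2 * q 2 2) * X ^ 4 + C (-(d / 2) * (q 2 3 + q 3 2)) * X ^ 3 +
      C (q 3 3 - (d / 2) * (q 2 6 + q 6 2)) * X ^ 2 + C (q 3 6 + q 6 3) * X + C (q 6 6) := by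
  unfold qe
  rw [uu2_dot, mulVec_uu2, mulVec_uu2, mulVec_uu2]
  simp only [C_mul, C_add, C_sub, C_neg, C_pow]
  ring

theorem quart_eq (q : Matrix (Fin 7) (Fin 7) F) (d : F) :
    quart q d = qe q d 0 0 * qe q d 1 1 * qe q d 2 2 - qe q d 0 0 * qe q d 1 2 * qe q d 2 1 -
      qe q d 0 1 * qe q d 1 0 * qe q d 2 2 + qe q d 0 1 * qe q d 1 2 * qe q d 2 0 +
      qe q d 0 2 * qe q d 1 0 * qe q d 2 1 - qe q d 0 2 * qe q d 1 1 * qe q d 2 0 := by
  unfold quart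
  rw [Matrix.det_fin_three]
  rfl

theorem coeff4 (a b c a' b' : F) :
    (C a * X ^ 4 + C b * X ^ 3 + C c * X ^ 2 + C a' * X + C b').coeff 4 = a := by
  simp [coeff_X, coeff_C, coeff_X_pow]

/-- the product of two quadratic polynomials -/
theorem coeff4_mul (a b c a' b' c' : F) :
    ((C a * X ^ 2 + C b * X + C c) * (C a' * X ^ 2 + C b' * X + C c')).coeff 4 = a * a' := by
  have h : (C a * X ^ 2 + C b * X + C c) * (C a' * X ^ 2 + C b' * X + C c') =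
      C (a * a') * X ^ 4 + C (a * b' + b * a') * X ^ 3 + C (a * c' + b * b' + c * a') * X ^ 2 +
        C (b * c' + c * b') * X + C (c * c') := by
    simp only [C_mul, C_add]
    ring
  rw [h, coeff4]

theorem pf_QLC : T_QLC := by
  intro F _ _ q d
  have e02 : qe q d 0 2 = C (-(d / 2) * q 0 2) * X ^ 2 + C (q 0 3) * X + C (q 0 6) := by
    rw [qe_02]
    simp only [C_mul, C_neg]
    ring
  have e12 : qe q d 1 2 = C (-(d / 2) * q 1 2) * X ^ 2 + C (q 1 3) * X + C (q 1 6) := by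
    rw [qe_12]
    simp only [C_mul, C_neg]
    ring
  have e20 : qe q d 2 0 = C (-(d / 2) * q 2 0) * X ^ 2 + C (q 3 0) * X + C (q 6 0) := by
    rw [qe_20]
    simp only [C_mul, C_neg]
    ring
  have e21 : qe q d 2 1 = C (-(d / 2) * q 2 1) * X ^ 2 + C (q 3 1) * X + C (q 6 1) := by
    rw [qe_21]
    simp only [C_mul, C_neg]
    ring
  have c22 : (qe q d 2 2).coeff 4 = (d / 2) ^ 2 * q 2 2 := by
    rw [qe_22, coeff4]
  have hq : quart q d = C (q 0 0 * q 1 1 - q 0 1 * q 1 0) * qe q d 2 2 -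
      C (q 0 0) * (qe q d 1 2 * qe q d 2 1) + C (q 0 1) * (qe q d 1 2 * qe q d 2 0) +
      C (q 1 0) * (qe q d 0 2 * qe q d 2 1) - C (q 1 1) * (qe q d 0 2 * qe q d 2 0) := by
    rw [quart_eq, qe_00, qe_01, qe_10, qe_11]
    simp only [C_mul, C_sub]
    ring
  rw [hq, e02, e12, e20, e21]
  simp only [coeff_add, coeff_sub, coeff_C_mul, coeff4_mul, c22]
  rw [Matrix.det_fin_three]
  simp only [blk]
  change _ = (d / 2) ^ 2 * (q 0 0 * q 1 1 * q 2 2 - q 0 0 * q 1 2 * q 2 1 - q 0 1 * q 1 0 * q 2 2 +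
    q 0 1 * q 1 2 * q 2 0 + q 0 2 * q 1 0 * q 2 1 - q 0 2 * q 1 1 * q 2 0)
  ring

end

end Pool.Agent.H1.N6F
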