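import Pool.Agent.H18.N6F.Targets
import Pool.Agent.H1.N6F.QLC

/-!
# Row FMIN: the minor of an irreducible quartic
-/

set_option autoImplicit false

open Polynomial NumberField IsDedekindDomain Matrix Pool.Agent.H32.QC Pool.Agent.H34.N6
  Pool.Agent.H18.N6F

namespace Pool.Agent.H1.N6F

/-- a constant times a square is not irreducible of degree four -/
theorem not_irr_of_sq {F : Type} [Field F] (Q R : F[X]) (c : F) (hQ : Q = C c * R ^ 2)
    (hirr : Irreducible Q) (hdeg : Q.natDegree = 4) : False := by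
  have h1 : Q = (C c * R) * R := by
    rw [hQ]
    ring
  rcases hirr.isUnit_or_isUnit h1 with h | h
  · have hR : IsUnit R := isUnit_of_mul_isUnit_right h
    have h2 := natDegree_eq_zero_of_isUnit h
    have h3 := natDegree_eq_zero_of_isUnit hR
    have h4 : Q.natDegree ≤ 0 := by
      rw [h1]
      refine natDegree_mul_le.trans ?_
      rw [h2, h3]
    omega
  · have h3 := natDegree_eq_zero_of_isUnit h
    have h4 : Q.natDegree ≤ 0 := by
      rw [hQ]
      refine natDegree_mul_le.trans ?_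
      rw [natDegree_C, natDegree_pow, h3]
    omega

theorem pf_MIN : T_MIN := by
  intro F _ h2 q d hq hirr hdeg h0
  have hs : ∀ i j, q i j = q j i := fun i j => by
    have := congrFun (congrFun hq j) i
    exact this
  have e10 : qe q d 1 0 = C (q 0 1) := by rw [qe_10, hs 1 0]
  have e20 : qe q d 2 0 = qe q d 0 2 := by
    rw [qe_20, qe_02, hs 2 0, hs 3 0, hs 6 0]
  have e21 : qe q d 2 1 = qe q d 1 2 := by
    rw [qe_21, qe_12, hs 2 1, hs 3 1, hs 6 1]
  have hd : C (q 0 0) * C (q 1 1) = (C (q 0 1) : F[X]) ^ 2 := by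
    rw [← C_mul, ← C_pow]
    congr 1
    linear_combination h0
  have hquart : quart q d = -(C (q 0 0) * (qe q d 1 2) ^ 2 -
      2 * C (q 0 1) * qe q d 0 2 * qe q d 1 2 + C (q 1 1) * (qe q d 0 2) ^ 2) := by
    rw [quart_eq, qe_00, qe_01, e10, qe_11, e20, e21]
    linear_combination hd * qe q d 2 2
  by_cases h00 : q 0 0 = 0
  · have h01 : q 0 1 = 0 := by
      rw [h00, zero_mul, zero_sub, neg_eq_zero] at h0
      exact pow_eq_zero_iff (two_ne_zero) |>.1 h0
    refine not_irr_of_sq (quart q d) (qe q d 0 2) (-(q 1 1)) ?_ hirr hdeg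
    rw [hquart, h00, h01, C_neg, C_0]
    ring
  · refine not_irr_of_sq (quart q d) (C (q 0 0) * qe q d 1 2 - C (q 0 1) * qe q d 0 2)
      (-(q 0 0)⁻¹) ?_ hirr hdeg
    have h3 : (C (q 0 0)⁻¹ : F[X]) * C (q 0 0) = 1 := by
      rw [← C_mul, inv_mul_cancel₀ h00, C_1]
    rw [hquart, C_neg]
    have h4 : C (q 1 1) = (C (q 0 0)⁻¹ : F[X]) * (C (q 0 1)) ^ 2 := by
      rw [← hd, ← mul_assoc, h3, one_mul]
    rw [h4]
    linear_combination (-(C (q 0 0) * (qe q d 1 2) ^ 2) + 2 * C (q 0 1) * qe q d 0 2 * qe q d 1 2) *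
      (-1 : F[X]) * (h3 * 1)
end Pool.Agent.H1.N6F
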